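import Pool.Agent.H21.CST.S1

/-!
# CST: reduction by one point
-/

set_option autoImplicit false

namespace Pool.CST

open MvPolynomial

/-- The coefficients in `D` are bounded by those in `E`. -/
theorem red_key {ι J : Type} [DecidableEq ι] (D E : Finset ι) (f : J → ι → ℂ)
    (h : ∀ c : ι → ℂ, (∀ j, ∑ a ∈ D, c a * f j a = 0) → ∀ a ∈ D, c a = 0)
    (hDE : Disjoint D E) :
    ∃ C : ℝ, 0 ≤ C ∧ ∀ c : ι → ℂ, (∀ j, ∑ a ∈ D ∪ E, c a * f j a = 0) →
      ∀ M : ℝ, 0 ≤ M → (∀ b ∈ E, ‖c b‖ ≤ M) → ∀ a ∈ D, ‖c a‖ ≤ C * M := by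
  classical
  let V : Submodule ℂ (↥(D ∪ E) → ℂ) :=
    { carrier := {x | ∀ j, ∑ a : ↥(D ∪ E), x a * f j a.1 = 0}
      add_mem' := by
        intro x y hx hy j
        have e : ∀ a : ↥(D ∪ E), (x + y) a * f j a.1 = x a * f j a.1 + y a * f j a.1 :=
          fun a => by rw [Pi.add_apply]; ring
        rw [Finset.sum_congr rfl fun a _ => e a, Finset.sum_add_distrib, hx j, hy j, add_zero]
      zero_mem' := by
        intro j
        simp
      smul_mem' := by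
        intro r x hx j
        have e : ∀ a : ↥(D ∪ E), (r • x) a * f j a.1 = r * (x a * f j a.1) :=
          fun a => by rw [Pi.smul_apply, smul_eq_mul]; ring
        rw [Finset.sum_congr rfl fun a _ => e a, ← Finset.mul_sum, hx j, mul_zero] }
  let T : V →ₗ[ℂ] (E → ℂ) :=
    { toFun := fun x b => x.1 ⟨b.1, Finset.mem_union_right _ b.2⟩
      map_add' := fun x y => rfl
      map_smul' := fun r x => rfl }
  have hker : LinearMap.ker T = ⊥ := by
    rw [LinearMap.ker_eq_bot']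
    intro x hx
    obtain ⟨c, hcd⟩ : ∃ c : ι → ℂ, c = fun a => if ha : a ∈ D ∪ E then x.1 ⟨a, ha⟩ else 0 :=
      ⟨_, rfl⟩
    have hc : ∀ a (ha : a ∈ D ∪ E), c a = x.1 ⟨a, ha⟩ := fun a ha => by
      rw [hcd]
      exact dif_pos ha
    have hcE : ∀ a ∈ E, c a = 0 := fun a ha => by
      rw [hc a (Finset.mem_union_right _ ha)]
      exact congrFun hx ⟨a, ha⟩
    have hcD : ∀ a ∈ D, c a = 0 := by
      refine h c fun j => ?_
      have h1 := x.2 j
      have h2 : ∑ a : ↥(D ∪ E), x.1 a * f j a.1 = ∑ a ∈ D ∪ E, c a * f j a := by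
        rw [← Finset.sum_coe_sort (D ∪ E) fun a => c a * f j a]
        exact Finset.sum_congr rfl fun a _ => by rw [hc a.1 a.2]
      rw [h2, Finset.sum_union hDE] at h1
      rw [Finset.sum_eq_zero (s := E) fun a ha => by rw [hcE a ha, zero_mul], add_zero] at h1
      exact h1
    refine Subtype.ext (funext fun a => ?_)
    have h1 : c a.1 = 0 := by
      rcases Finset.mem_union.1 a.2 with h2 | h2
      · exact hcD _ h2
      · exact hcE _ h2
    rw [hc a.1 a.2] at h1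
    exact h1
  obtain ⟨K, -, hK⟩ := LinearMap.exists_antilipschitzWith T hker
  refine ⟨K, K.2, fun c hc M hM hb a ha => ?_⟩
  obtain ⟨x, hx⟩ : ∃ x : V, x.1 = fun a : ↥(D ∪ E) => c a.1 := ⟨⟨fun a => c a.1, fun j => by
    rw [Finset.sum_coe_sort (D ∪ E) fun a => c a * f j a]
    exact hc j⟩, rfl⟩
  have h1 := hK.le_mul_dist x 0
  rw [map_zero, dist_zero_right, dist_zero_right] at h1
  have h2 : ‖T x‖ ≤ M := (pi_norm_le_iff_of_nonneg hM).2 fun b => by
    have : T x b = c b.1 := by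
      show x.1 _ = _
      rw [hx]
    rw [this]
    exact hb _ b.2
  have h3 : ‖c a‖ ≤ ‖x‖ := by
    have h4 := norm_le_pi_norm x.1 ⟨a, Finset.mem_union_left _ ha⟩
    have h5 : x.1 ⟨a, Finset.mem_union_left _ ha⟩ = c a := by rw [hx]
    rw [h5] at h4
    exact h4
  exact h3.trans (h1.trans (mul_le_mul_of_nonneg_left h2 K.2))

/-- The weight. -/
def wt {δ : ℕ} (v : Fin δ → ℤ) (a : Fin δ → ℕ) : ℤ := ∑ j, v j * (a j : ℤ)

/-- Sums in the exponent. -/
theorem zpow_sum' {ι : Type} {t : ℂ} (ht : t ≠ 0) (s : Finset ι) (f : ι → ℤ) :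
    ∏ j ∈ s, t ^ f j = t ^ (∑ j ∈ s, f j) := by
  classical
  induction s using Finset.induction_on with
  | empty => simp
  | insert a s ha ih => rw [Finset.prod_insert ha, Finset.sum_insert ha, ih, zpow_add₀ ht]

theorem wt_cons {δ : ℕ} (M : ℤ) (v : Fin δ → ℤ) (a : Fin (δ + 1) → ℕ) :
    wt (Fin.cons M v : Fin (δ + 1) → ℤ) a = M * a 0 + wt v (Fin.tail a) := by
  unfold wt
  rw [Fin.sum_univ_succ, Fin.cons_zero]
  refine congrArg _ (Finset.sum_congr rfl fun j _ => ?_)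
  rw [Fin.cons_succ]
  rfl

/-- A bound for a finite family. -/
theorem bd_ex {α : Type} (Z : Finset α) (f : α → α → ℤ) :
    ∃ M : ℤ, ∀ a ∈ Z, ∀ b ∈ Z, f a b < M := by
  classical
  refine ⟨∑ p ∈ Z ×ˢ Z, |f p.1 p.2| + 1, fun a ha b hb => ?_⟩
  have h1 : |f a b| ≤ ∑ p ∈ Z ×ˢ Z, |f p.1 p.2| :=
    Finset.single_le_sum (f := fun p : α × α => |f p.1 p.2|) (fun p _ => abs_nonneg _)
      (Finset.mk_mem_product ha hb)
  have h2 := le_abs_self (f a b)
  omega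

/-- A weight which decreases along the order. -/
theorem wt_ex (δ : ℕ) : ∀ Z : Finset (Fin (δ + 1) → ℕ), ∃ v : Fin (δ + 1) → ℤ,
    ∀ a ∈ Z, ∀ b ∈ Z, Bef δ a b → wt v b < wt v a := by
  induction δ with
  | zero =>
    intro Z
    refine ⟨fun _ => 1, fun a _ b _ h => ?_⟩
    have h1 : b 0 < a 0 := h
    have e : ∀ x : Fin 1 → ℕ, wt (fun _ => (1 : ℤ)) x = x 0 := fun x => by
      unfold wt
      rw [Fin.sum_univ_one, one_mul]
    have h2 : ((b 0 : ℕ) : ℤ) < a 0 := by exact_mod_cast h1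
    have ea := e a
    have eb := e b
    exact (eb.trans_lt h2).trans_eq ea.symm
  | succ δ ih =>
    intro Z
    classical
    obtain ⟨v, hv⟩ := ih (Z.image Fin.tail)
    obtain ⟨M, hM⟩ := bd_ex Z fun a b => |wt v (Fin.tail b) - wt v (Fin.tail a)|
    refine ⟨Fin.cons (-M) v, fun a ha b hb h => ?_⟩
    have ea := wt_cons (-M) v a
    have eb := wt_cons (-M) v b
    obtain ⟨x, hx⟩ : ∃ x, x = wt v (Fin.tail a) := ⟨_, rfl⟩
    obtain ⟨y, hy⟩ : ∃ y, y = wt v (Fin.tail b) := ⟨_, rfl⟩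
    have h3 : |y - x| < M := by
      rw [hx, hy]
      exact hM a ha b hb
    rw [← hx] at ea
    rw [← hy] at eb
    refine (eb.trans_lt ?_).trans_eq ea.symm
    obtain ⟨p, hp⟩ : ∃ p : ℤ, p = (a 0 : ℤ) := ⟨_, rfl⟩
    obtain ⟨r, hr⟩ : ∃ r : ℤ, r = (b 0 : ℤ) := ⟨_, rfl⟩
    rw [← hp, ← hr]
    rcases h with h | ⟨h1, h2⟩
    · have h6 := abs_lt.1 h3
      have h7 : p + 1 ≤ r := by
        rw [hp, hr]
        exact_mod_cast h
      have h8 : 0 < M := (abs_nonneg _).trans_lt h3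
      have h9 : M * (p + 1) ≤ M * r := mul_le_mul_of_nonneg_left h7 h8.le
      have e1 : M * (p + 1) = M * p + M := by ring
      have e2 : -M * r = -(M * r) := by ring
      have e3 : -M * p = -(M * p) := by ring
      rw [e2, e3]
      omega
    · have h4 := hv (Fin.tail a) (Finset.mem_image_of_mem _ ha) (Fin.tail b)
        (Finset.mem_image_of_mem _ hb) h2
      have h5 : p = r := by rw [hp, hr, h1]
      rw [h5]
      rw [← hx, ← hy] at h4
      omega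

/-- The order is total. -/
theorem bef_total (δ : ℕ) : ∀ a b : Fin (δ + 1) → ℕ, a ≠ b → Bef δ a b ∨ Bef δ b a := by
  induction δ with
  | zero =>
    intro a b hab
    have h : a 0 ≠ b 0 := fun h => hab (funext fun i => by
      rw [Fin.fin_one_eq_zero i]
      exact h)
    show b 0 < a 0 ∨ a 0 < b 0
    omega
  | succ δ ih =>
    intro a b hab
    rcases lt_trichotomy (a 0) (b 0) with h | h | h
    · exact Or.inl (Or.inl h)
    · have h1 : Fin.tail a ≠ Fin.tail b := fun h1 => hab (by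
        rw [← Fin.cons_self_tail a, ← Fin.cons_self_tail b, h, h1])
      rcases ih _ _ h1 with h2 | h2
      · exact Or.inl (Or.inr ⟨h, h2⟩)
      · exact Or.inr (Or.inr ⟨h.symm, h2⟩)
    · exact Or.inr (Or.inl h)

/-- The polynomials of the removed exponents. -/
theorem red_pol {δ m : ℕ} {Z : Finset (Fin (δ + 1) → ℕ)} {u : Fin (δ + 1) → ℕ} (hu : u ∈ Z)
    (hu' : u ∉ st δ m Z) : ∃ q : MvPolynomial (Fin (δ + 1)) ℂ, q.totalDegree < m ∧
      (∀ a ∈ Z, Bef δ a u → ev a q = 0) ∧ ev u q = 1 := by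
  classical
  unfold st at hu'
  rw [Finset.mem_filter, not_and] at hu'
  have h1 := hu' hu
  push Not at h1
  obtain ⟨q, hq, h2, h3⟩ := h1
  refine ⟨C (ev u q)⁻¹ * q, ?_, fun a ha hau => ?_, ?_⟩
  · refine lt_of_le_of_lt (totalDegree_mul _ _) ?_
    rw [totalDegree_C, zero_add]
    exact hq
  · have := h2 a ha hau
    unfold ev at this ⊢
    rw [map_mul, this, mul_zero]
  · unfold ev at h3 ⊢
    rw [map_mul, eval_C, inv_mul_cancel₀ h3]

theorem t_red : REDStmt := by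
  classical
  intro δ m s Z ⟨P, hP⟩
  obtain ⟨U, hU⟩ : ∃ U, U = Z \ st δ m Z := ⟨_, rfl⟩
  have hstZ : st δ m Z ⊆ Z := by
    unfold st
    exact Finset.filter_subset _ _
  have hdis : Disjoint (st δ m Z) U := by
    rw [hU]
    exact Finset.disjoint_sdiff
  have hun : st δ m Z ∪ U = Z := by
    rw [hU]
    exact Finset.union_sdiff_of_subset hstZ
  have hUZ : U ⊆ Z := by
    rw [hU]
    exact Finset.sdiff_subset
  have hq : ∀ u ∈ U, ∃ q : MvPolynomial (Fin (δ + 1)) ℂ, q.totalDegree < m ∧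
      (∀ a ∈ Z, Bef δ a u → ev a q = 0) ∧ ev u q = 1 := fun u hu => by
    rw [hU, Finset.mem_sdiff] at hu
    exact red_pol hu.1 hu.2
  choose! q hq1 hq2 hq3 using hq
  obtain ⟨C₁, hC₁, k₁⟩ := red_key (J := Fin s × {q : MvPolynomial (Fin (δ + 1)) ℂ //
    q.totalDegree < m}) (st δ m Z) U (fun j a => ev a j.2.1 * ∏ i, P j.1 i ^ a i)
    (fun c hc => hP c fun i q hq => by
      have := hc (i, ⟨q, hq⟩)
      rw [← this]
      exact Finset.sum_congr rfl fun a _ => by ring) hdis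
  obtain ⟨v, hv⟩ := wt_ex δ Z
  obtain ⟨K, hKd⟩ : ∃ K : ℝ, K = ∑ u ∈ U, ∑ a ∈ Z, ‖ev a (q u)‖ := ⟨_, rfl⟩
  have hK0 : 0 ≤ K := by
    rw [hKd]
    exact Finset.sum_nonneg fun u _ => Finset.sum_nonneg fun a _ => norm_nonneg _
  have hK : ∀ u ∈ U, ∀ a ∈ Z, ‖ev a (q u)‖ ≤ K := by
    intro u hu a ha
    rw [hKd]
    exact le_trans (Finset.single_le_sum (f := fun a => ‖ev a (q u)‖)
      (fun a _ => norm_nonneg _) ha)
      (Finset.single_le_sum (f := fun u => ∑ a ∈ Z, ‖ev a (q u)‖)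
        (fun u _ => Finset.sum_nonneg fun a _ => norm_nonneg _) hu)
  obtain ⟨n₁, hn1d⟩ : ∃ n₁ : ℝ, n₁ = (st δ m Z).card := ⟨_, rfl⟩
  obtain ⟨n₂, hn2d⟩ : ∃ n₂ : ℝ, n₂ = U.card := ⟨_, rfl⟩
  have hn₁ : 0 ≤ n₁ := by rw [hn1d]; exact Nat.cast_nonneg _
  have hn₂ : 0 ≤ n₂ := by rw [hn2d]; exact Nat.cast_nonneg _
  obtain ⟨t, htd⟩ : ∃ t : ℝ, t = n₂ * K * (n₁ * C₁ + 1) + 1 := ⟨_, rfl⟩
  have ht1 : 1 ≤ t := by
    have : 0 ≤ n₂ * K * (n₁ * C₁ + 1) := by positivity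
    rw [htd]; linarith
  have ht0 : 0 < t := by linarith
  have htC : (t : ℂ) ≠ 0 := by exact_mod_cast ht0.ne'
  refine ⟨Fin.snoc P (fun j => (t : ℂ) ^ (v j)), ?_⟩
  intro c hc
  have h1 : ∀ j : Fin s × {q : MvPolynomial (Fin (δ + 1)) ℂ // q.totalDegree < m},
      ∑ a ∈ st δ m Z ∪ U, c a * (ev a j.2.1 * ∏ i, P j.1 i ^ a i) = 0 := by
    intro j
    have h2 := hc j.1.castSucc j.2.1 j.2.2
    simp only [Fin.snoc_castSucc] at h2
    rw [hun, ← h2]
    exact Finset.sum_congr rfl fun a _ => by ring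
  have hprod : ∀ a : Fin (δ + 1) → ℕ, ∏ j, ((t : ℂ) ^ (v j)) ^ a j = (t : ℂ) ^ (wt v a) := by
    intro a
    unfold wt
    rw [← zpow_sum' htC]
    refine Finset.prod_congr rfl fun j _ => ?_
    rw [zpow_mul, zpow_natCast]
  obtain ⟨N₁, hN1d⟩ : ∃ N₁ : ℝ, N₁ = ∑ a ∈ st δ m Z, ‖c a‖ := ⟨_, rfl⟩
  obtain ⟨N₂, hN2d⟩ : ∃ N₂ : ℝ, N₂ = ∑ a ∈ U, ‖c a‖ := ⟨_, rfl⟩
  have hN₁ : 0 ≤ N₁ := by rw [hN1d]; exact Finset.sum_nonneg fun a _ => norm_nonneg _
  have hN₂ : 0 ≤ N₂ := by rw [hN2d]; exact Finset.sum_nonneg fun a _ => norm_nonneg _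
  have hN : ∑ a ∈ Z, ‖c a‖ = N₁ + N₂ := by
    rw [hN1d, hN2d, ← Finset.sum_union hdis, hun]
  have b2 : ∀ a ∈ U, ‖c a‖ ≤ N₂ := fun a ha => by
    rw [hN2d]
    exact Finset.single_le_sum (f := fun a => ‖c a‖) (fun a _ => norm_nonneg _) ha
  have g1 : ∀ a ∈ st δ m Z, ‖c a‖ ≤ C₁ * N₂ := k₁ c h1 N₂ hN₂ b2
  have hnt : ∀ z : ℤ, ‖(t : ℂ) ^ z‖ = t ^ z := fun z => by
    rw [norm_zpow, Complex.norm_real, Real.norm_of_nonneg ht0.le]
  have g3 : ∀ u ∈ U, ‖c u‖ * t ≤ K * (N₁ + N₂) := by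
    intro u hu
    have huZ : u ∈ Z := hUZ hu
    have h3 := hc (Fin.last s) (q u) (hq1 u hu)
    simp only [Fin.snoc_last] at h3
    rw [Finset.sum_congr rfl fun a _ => by rw [hprod a], ← Finset.add_sum_erase Z _ huZ,
      hq3 u hu, mul_one] at h3
    have h4 := eq_neg_of_add_eq_zero_left h3
    have e1 : ‖c u‖ * t ^ (wt v u) =
        ‖∑ a ∈ Z.erase u, c a * ev a (q u) * (t : ℂ) ^ (wt v a)‖ := by
      have e0 := congrArg norm h4
      rw [norm_neg, norm_mul, hnt] at e0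
      exact e0
    have hpos : 0 < t ^ (wt v u) := zpow_pos ht0 _
    have e2 : ∀ a ∈ Z.erase u, ‖c a * ev a (q u) * (t : ℂ) ^ (wt v a)‖ * t ≤
        ‖c a‖ * (K * t ^ (wt v u)) := by
      intro a ha
      rw [Finset.mem_erase] at ha
      obtain ⟨hau, haZ⟩ := ha
      rw [norm_mul, norm_mul, hnt]
      rcases bef_total δ a u hau with h5 | h5
      · rw [hq2 u hu a haZ h5, norm_zero, mul_zero, zero_mul, zero_mul]
        positivity
      · have h6 := hv u huZ a haZ h5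
        have e3 : t ^ (wt v a) * t ≤ t ^ (wt v u) := by
          rw [← zpow_add_one₀ ht0.ne']
          exact zpow_le_zpow_right₀ ht1 (by omega)
        calc ‖c a‖ * ‖ev a (q u)‖ * t ^ (wt v a) * t
            = ‖c a‖ * (‖ev a (q u)‖ * (t ^ (wt v a) * t)) := by ring
          _ ≤ ‖c a‖ * (K * t ^ (wt v u)) := by
              refine mul_le_mul_of_nonneg_left ?_ (norm_nonneg _)
              exact mul_le_mul (hK u hu a haZ) e3 (by positivity) hK0
    have h5 : ‖c u‖ * t ^ (wt v u) * t ≤ (N₁ + N₂) * (K * t ^ (wt v u)) := by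
      calc ‖c u‖ * t ^ (wt v u) * t
          = ‖∑ a ∈ Z.erase u, c a * ev a (q u) * (t : ℂ) ^ (wt v a)‖ * t := by rw [e1]
        _ ≤ (∑ a ∈ Z.erase u, ‖c a * ev a (q u) * (t : ℂ) ^ (wt v a)‖) * t :=
            mul_le_mul_of_nonneg_right (norm_sum_le _ _) ht0.le
        _ = ∑ a ∈ Z.erase u, ‖c a * ev a (q u) * (t : ℂ) ^ (wt v a)‖ * t := by
            rw [Finset.sum_mul]
        _ ≤ ∑ a ∈ Z.erase u, ‖c a‖ * (K * t ^ (wt v u)) := Finset.sum_le_sum e2
        _ = (∑ a ∈ Z.erase u, ‖c a‖) * (K * t ^ (wt v u)) := by rw [Finset.sum_mul]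
        _ ≤ (N₁ + N₂) * (K * t ^ (wt v u)) := by
            refine mul_le_mul_of_nonneg_right ?_ (by positivity)
            rw [← hN]
            exact Finset.sum_le_sum_of_subset_of_nonneg (Finset.erase_subset _ _)
              fun a _ _ => norm_nonneg _
    have h6 : (‖c u‖ * t) * t ^ (wt v u) ≤ (K * (N₁ + N₂)) * t ^ (wt v u) := by
      calc (‖c u‖ * t) * t ^ (wt v u) = ‖c u‖ * t ^ (wt v u) * t := by ring
        _ ≤ _ := h5
        _ = _ := by ring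
    exact le_of_mul_le_mul_right h6 hpos
  have s1 : N₁ ≤ n₁ * (C₁ * N₂) := by
    have := Finset.sum_le_sum g1
    rw [Finset.sum_const, nsmul_eq_mul, ← hN1d, ← hn1d] at this
    exact this
  have s2 : N₂ * t ≤ n₂ * (K * (N₁ + N₂)) := by
    have h3 : N₂ * t = ∑ b ∈ U, ‖c b‖ * t := by rw [hN2d, Finset.sum_mul]
    have := Finset.sum_le_sum g3
    rw [Finset.sum_const, nsmul_eq_mul, ← h3, ← hn2d] at this
    exact this
  have s3 : N₂ = 0 := by
    have h3 : N₂ * t ≤ (n₂ * K * (n₁ * C₁ + 1)) * N₂ := by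
      calc N₂ * t ≤ n₂ * (K * (N₁ + N₂)) := s2
        _ ≤ n₂ * (K * (n₁ * (C₁ * N₂) + N₂)) := by gcongr
        _ = (n₂ * K * (n₁ * C₁ + 1)) * N₂ := by ring
    have h4 : N₂ * t = (n₂ * K * (n₁ * C₁ + 1)) * N₂ + N₂ := by
      rw [htd]; ring
    linarith
  intro a ha
  rw [← hun] at ha
  rcases Finset.mem_union.1 ha with h3 | h3
  · have h4 := g1 a h3
    rw [s3, mul_zero] at h4
    exact norm_le_zero_iff.1 h4
  · have h4 := b2 a h3
    rw [s3] at h4
    exact norm_le_zero_iff.1 h4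

end Pool.CST
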